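import Pool.Agent.H51.EI.TargetsB

/-!
# The nodes are separated
-/

set_option autoImplicit false

open Finset

namespace Pool.Agent.H86.EI.SPR

open Pool.Agent.H51.EI
open Pool.Agent.H25.EE (Idx Ix mlt nd s0 s1 hn EX exo gt GG VJ thr phi bN bH)

private theorem key (C : ℝ) (hC : 0 ≤ C) (κ1 κ2 B : ℂ) (hB : B ≠ 0)
    (hs : ∀ m n : ℤ, (m ≠ 0 ∨ n ≠ 0) →
      Real.exp (-(C * (|(m : ℝ)| + |(n : ℝ)|) * Real.log (|(m : ℝ)| + |(n : ℝ)| + 1))) ≤
        ‖(m : ℂ) * κ1 + n * κ2‖) (J : ℕ) (hJ : 2 ≤ J) (x y : ℤ × ℤ) (hx : x ∈ nd J)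
    (hy : y ∈ nd J) (hxy : x ≠ y) :
    Real.exp (-((16 * C + |Real.log ‖B‖|) * J * Real.log J)) ≤
      ‖((x.1 : ℂ) * κ1 + x.2 * κ2) / B - ((y.1 : ℂ) * κ1 + y.2 * κ2) / B‖ := by
  have hJ2 : (2 : ℝ) ≤ J := by exact_mod_cast hJ
  have hJ0 : (0 : ℝ) < J := by linarith
  unfold nd at hx hy
  rw [Finset.mem_product, Finset.mem_Icc, Finset.mem_Icc] at hx hy
  have hne : x.1 - y.1 ≠ 0 ∨ x.2 - y.2 ≠ 0 := by
    by_contra h
    push Not at h
    exact hxy (Prod.ext (by linarith [h.1]) (by linarith [h.2]))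
  have h1 := hs _ _ hne
  set M : ℝ := |((x.1 - y.1 : ℤ) : ℝ)| + |((x.2 - y.2 : ℤ) : ℝ)| with hM
  have hM0 : 0 ≤ M := by positivity
  have hM4 : M ≤ 4 * J := by
    have e1 : |x.1 - y.1| ≤ 2 * (J : ℤ) := abs_le.2 ⟨by linarith [hx.1.1, hy.1.2],
      by linarith [hx.1.2, hy.1.1]⟩
    have e2 : |x.2 - y.2| ≤ 2 * (J : ℤ) := abs_le.2 ⟨by linarith [hx.2.1, hy.2.2],
      by linarith [hx.2.2, hy.2.1]⟩
    have e3 : |((x.1 - y.1 : ℤ) : ℝ)| ≤ 2 * J := by exact_mod_cast e1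
    have e4 : |((x.2 - y.2 : ℤ) : ℝ)| ≤ 2 * J := by exact_mod_cast e2
    linarith
  have hlog : Real.log (M + 1) ≤ 4 * Real.log J := by
    have e1 : M + 1 ≤ (J : ℝ) ^ 4 := by
      have e2 : (J : ℝ) ^ 2 ≥ 4 := by nlinarith
      have e3 : (J : ℝ) ^ 4 = (J : ℝ) ^ 2 * (J : ℝ) ^ 2 := by ring
      have e4 : (J : ℝ) ^ 2 ≥ 2 * J := by nlinarith
      rw [e3]
      nlinarith
    calc Real.log (M + 1) ≤ Real.log ((J : ℝ) ^ 4) := Real.log_le_log (by linarith) e1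
      _ = 4 * Real.log J := by rw [Real.log_pow]; norm_num
  have hlJ : 0 ≤ Real.log J := Real.log_nonneg (by linarith)
  have hlM : 0 ≤ Real.log (M + 1) := Real.log_nonneg (by linarith)
  have hJl : 1 ≤ (J : ℝ) * Real.log J := by
    have e1 : Real.log 2 ≤ Real.log J := Real.log_le_log (by norm_num) hJ2
    have e2 := Real.log_two_gt_d9
    nlinarith
  have hBp : 0 < ‖B‖ := norm_pos_iff.2 hB
  have h2 : ((x.1 : ℂ) * κ1 + x.2 * κ2) / B - ((y.1 : ℂ) * κ1 + y.2 * κ2) / B =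
      (((x.1 - y.1 : ℤ) : ℂ) * κ1 + ((x.2 - y.2 : ℤ) : ℂ) * κ2) / B := by
    push_cast
    ring
  rw [h2, norm_div, le_div_iff₀ hBp]
  refine le_trans ?_ h1
  have h3 : ‖B‖ ≤ Real.exp (|Real.log ‖B‖| * (J * Real.log J)) := by
    calc ‖B‖ = Real.exp (Real.log ‖B‖) := (Real.exp_log hBp).symm
      _ ≤ _ := by
        rw [Real.exp_le_exp]
        calc Real.log ‖B‖ ≤ |Real.log ‖B‖| := le_abs_self _
          _ = |Real.log ‖B‖| * 1 := (mul_one _).symm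
          _ ≤ |Real.log ‖B‖| * (J * Real.log J) :=
            mul_le_mul_of_nonneg_left hJl (abs_nonneg _)
  calc Real.exp (-((16 * C + |Real.log ‖B‖|) * J * Real.log J)) * ‖B‖
      ≤ Real.exp (-((16 * C + |Real.log ‖B‖|) * J * Real.log J)) *
        Real.exp (|Real.log ‖B‖| * (J * Real.log J)) :=
        mul_le_mul_of_nonneg_left h3 (Real.exp_pos _).le
    _ = Real.exp (-(16 * C * (J * Real.log J))) := by
        rw [← Real.exp_add]
        congr 1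
        ring
    _ ≤ Real.exp (-(C * M * Real.log (M + 1))) := by
        rw [Real.exp_le_exp]
        have e1 : M * Real.log (M + 1) ≤ (4 * J) * (4 * Real.log J) :=
          mul_le_mul hM4 hlog hlM (by positivity)
        have e2 := mul_le_mul_of_nonneg_left e1 hC
        linarith

/-- the nodes are separated -/
theorem pf_SPR : T_SPR := by
  intro O X0 π
  refine ⟨16 * π.C + |Real.log ‖ev π.A X0‖| + |Real.log ‖ev π.B X0‖|, ?_, ?_⟩
  · have := π.hC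
    positivity
  intro J hJ x hx y hy hxy
  have hJ2 : (2 : ℝ) ≤ J := by exact_mod_cast hJ
  have hJl : 0 ≤ (J : ℝ) * Real.log J :=
    mul_nonneg (by linarith) (Real.log_nonneg (by linarith))
  have h1 := key π.C π.hC _ _ _ π.hB π.hsx J hJ x y hx hy hxy
  have h2 := key π.C π.hC _ _ _ π.hA π.hsy J hJ x y hx hy hxy
  refine ⟨le_trans ?_ h1, le_trans ?_ h2⟩
  · rw [Real.exp_le_exp]
    have := mul_nonneg (abs_nonneg (Real.log ‖ev π.A X0‖)) hJl
    linarith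
  · rw [Real.exp_le_exp]
    have := mul_nonneg (abs_nonneg (Real.log ‖ev π.B X0‖)) hJl
    linarith

end Pool.Agent.H86.EI.SPR
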