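import Pool.Agent.H51.EI.TargetsB

/-!
# Size of the factors (an adaptation of `Pool/Agent/H59/EE/BND.lean`)
-/

set_option autoImplicit false

open Finset

namespace Pool.Agent.H86.EI.BND

open Pool.Agent.H51.EI
open Pool.Agent.H25.EE (Idx Ix mlt nd s0 s1 hn EX exo gt GG VJ thr phi bN bH)

private theorem nd_abs {J : ℕ} {x : ℤ × ℤ} (hx : x ∈ nd J) :
    |(x.1 : ℝ)| ≤ J ∧ |(x.2 : ℝ)| ≤ J := by
  unfold nd at hx
  rw [Finset.mem_product, Finset.mem_Icc, Finset.mem_Icc] at hx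
  refine ⟨abs_le.2 ⟨?_, ?_⟩, abs_le.2 ⟨?_, ?_⟩⟩
  · exact_mod_cast hx.1.1
  · exact_mod_cast hx.1.2
  · exact_mod_cast hx.2.1
  · exact_mod_cast hx.2.2

private theorem hn_le {J : ℕ} {x : ℤ × ℤ} (hx : x ∈ nd J) : (hn x).toNat ≤ J ^ 2 := by
  unfold nd at hx
  rw [Finset.mem_product, Finset.mem_Icc, Finset.mem_Icc] at hx
  have h1 : x.1 ^ 2 ≤ (J : ℤ) ^ 2 := sq_le_sq' (by linarith [hx.1.1]) hx.1.2
  have h2 : x.2 ^ 2 ≤ (J : ℤ) ^ 2 := sq_le_sq' (by linarith [hx.2.1]) hx.2.2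
  rw [Int.toNat_le]
  unfold hn
  push_cast
  omega

/-- linear form at a node -/
private theorem lin_le (a b c : ℂ) {J : ℕ} {x : ℤ × ℤ} (hx : x ∈ nd J) :
    ‖((x.1 : ℂ) * a + x.2 * b) / c‖ ≤ (‖a‖ + ‖b‖) / ‖c‖ * J := by
  obtain ⟨h1, h2⟩ := nd_abs hx
  rw [norm_div, div_mul_eq_mul_div]
  refine div_le_div_of_nonneg_right ?_ (norm_nonneg c)
  refine (norm_add_le _ _).trans ?_
  rw [norm_mul, norm_mul, Complex.norm_intCast, Complex.norm_intCast, add_mul]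
  have e1 := mul_le_mul_of_nonneg_right h1 (norm_nonneg a)
  have e2 := mul_le_mul_of_nonneg_right h2 (norm_nonneg b)
  linarith

variable {O : Subring ℂ} {X0 : ℂ}

private theorem rho_one (π : Par O X0) : 1 ≤ rho π := by
  unfold rho
  have e1 : 0 ≤ (‖ev (π.x 0) X0‖ + ‖ev (π.x 1) X0‖) / ‖ev π.B X0‖ := by positivity
  have e2 : 0 ≤ (‖ev (π.y 0) X0‖ + ‖ev (π.y 1) X0‖) / ‖ev π.A X0‖ := by positivity
  linarith

private theorem om_le (π : Par O X0) {J : ℕ} {x : ℤ × ℤ} (hx : x ∈ nd J) :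
    ‖om π x‖ ≤ rho π * J := by
  unfold om
  refine (lin_le _ _ _ hx).trans (mul_le_mul_of_nonneg_right ?_ (Nat.cast_nonneg J))
  unfold rho
  have e2 : 0 ≤ (‖ev (π.y 0) X0‖ + ‖ev (π.y 1) X0‖) / ‖ev π.A X0‖ := by positivity
  linarith

private theorem ze_le (π : Par O X0) {J : ℕ} {x : ℤ × ℤ} (hx : x ∈ nd J) :
    ‖ze π x‖ ≤ rho π * J := by
  unfold ze
  refine (lin_le _ _ _ hx).trans (mul_le_mul_of_nonneg_right ?_ (Nat.cast_nonneg J))
  unfold rho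
  have e1 : 0 ≤ (‖ev (π.x 0) X0‖ + ‖ev (π.x 1) X0‖) / ‖ev π.B X0‖ := by positivity
  linarith

/-- powers of a positive number -/
private theorem pow_bd {α : ℝ} (hα : 0 < α) {k N : ℕ} (hk : k ≤ N) :
    Real.exp (-(|Real.log α| * N)) ≤ α ^ k ∧ α ^ k ≤ Real.exp (|Real.log α| * N) := by
  have h1 : α ^ k = Real.exp (Real.log α * k) := by
    rw [← Real.rpow_def_of_pos hα, Real.rpow_natCast]
  have hk' : (k : ℝ) ≤ N := by exact_mod_cast hk
  have hk0 : (0 : ℝ) ≤ k := Nat.cast_nonneg k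
  rw [h1, Real.exp_le_exp, Real.exp_le_exp]
  have h2 := abs_nonneg (Real.log α)
  have h3 := mul_le_mul_of_nonneg_left hk' h2
  have h4 := mul_le_mul_of_nonneg_right (le_abs_self (Real.log α)) hk0
  have h5 := mul_le_mul_of_nonneg_right (neg_abs_le (Real.log α)) hk0
  constructor <;> linarith

private theorem base (a z : ℂ) (r K : ℝ) (N i n J : ℕ) (hi : i ≤ N) (hJ : 1 ≤ J) (hr : 1 ≤ r)
    (hz : ‖z‖ ≤ r * J) (ha : ‖a‖ ≤ K) :
    ‖a * (n.descFactorial i : ℂ) * z ^ (n - i)‖ ≤ K * ((n : ℝ) + 1) ^ N * (r * J) ^ n := by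
  have hJ' : (1 : ℝ) ≤ J := by exact_mod_cast hJ
  have hrJ : 1 ≤ r * J := one_le_mul_of_one_le_of_one_le hr hJ'
  have hK : 0 ≤ K := (norm_nonneg a).trans ha
  rw [norm_mul, norm_mul, norm_pow, Complex.norm_natCast]
  have h1 : (n.descFactorial i : ℝ) ≤ ((n : ℝ) + 1) ^ N := by
    have e1 : (n.descFactorial i : ℝ) ≤ (n : ℝ) ^ i := by exact_mod_cast Nat.descFactorial_le_pow n i
    have e2 : (n : ℝ) ^ i ≤ ((n : ℝ) + 1) ^ i := pow_le_pow_left₀ (Nat.cast_nonneg n) (by linarith) i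
    have e3 : ((n : ℝ) + 1) ^ i ≤ ((n : ℝ) + 1) ^ N :=
      pow_le_pow_right₀ (by linarith [(Nat.cast_nonneg n : (0 : ℝ) ≤ n)]) hi
    linarith
  have h2 : ‖z‖ ^ (n - i) ≤ (r * J) ^ n :=
    (pow_le_pow_left₀ (norm_nonneg z) hz _).trans (pow_le_pow_right₀ hrJ (Nat.sub_le n i))
  exact mul_le_mul (mul_le_mul ha h1 (by positivity) hK) h2 (by positivity) (by positivity)

/-- size of the factors -/
theorem pf_BND (hCARD : T_CARD) : T_BND := by
  intro O X0 π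
  have hq : 1 ≤ qq π := Nat.one_le_pow _ _ π.hr
  obtain ⟨-, -, -, -, hm⟩ := hCARD (qq π) hq
  have hA : 0 < ‖ev π.A X0‖ := norm_pos_iff.2 π.hA
  have hB : 0 < ‖ev π.B X0‖ := norm_pos_iff.2 π.hB
  have hX : 0 < ‖X0‖ := norm_pos_iff.2 π.hX
  set w : Fin 2 → Fin 2 → ℝ := fun i j => ‖(π.u i j : ℂ)‖ * ‖(π.v i j : ℂ)‖ with hw
  have hw1 : ∀ i j, 0 < w i j := fun i j => by
    have h1 : (π.u i j : ℂ) ≠ 0 := by
      simpa using π.hu i j
    have h2 : (π.v i j : ℂ) ≠ 0 := by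
      simpa using π.hv i j
    exact mul_pos (norm_pos_iff.2 h1) (norm_pos_iff.2 h2)
  set W : ℝ := ∏ i : Fin 2, ∏ j : Fin 2, w i j with hW
  have hW1 : 0 < W := Finset.prod_pos fun i _ => Finset.prod_pos fun j _ => hw1 i j
  set cA := |Real.log ‖ev π.A X0‖| with hcA
  set cB := |Real.log ‖ev π.B X0‖| with hcB
  set cX := |Real.log ‖X0‖| with hcX
  set cW := |Real.log W| with hcW
  have hcA0 : 0 ≤ cA := abs_nonneg _
  have hcB0 : 0 ≤ cB := abs_nonneg _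
  have hcX0 : 0 ≤ cX := abs_nonneg _
  have hcW0 : 0 ≤ cW := abs_nonneg _
  refine ⟨cA + cB + cX + cW, by positivity, fun J hJ => ⟨fun a ha => ?_, fun b hb => ?_⟩⟩
  · obtain ⟨ha1, ha2⟩ := Finset.mem_sigma.1 ha
    have ha3 : a.2 ≤ J ^ 2 := (Finset.mem_range.1 ha2).le.trans (hm J a.1 ha1).1
    have hra : ‖ra π a‖ = ‖ev π.A X0‖ ^ a.2 * ‖X0‖ ^ (hn a.1).toNat := by
      unfold ra
      rw [norm_mul, norm_pow, norm_pow]
    obtain ⟨p1, p2⟩ := pow_bd hA ha3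
    obtain ⟨q1, q2⟩ := pow_bd hX (hn_le ha1)
    push_cast at p1 p2 q1 q2
    rw [← hcA] at p1 p2
    rw [← hcX] at q1 q2
    have hlow : Real.exp (-((cA + cB + cX + cW) * (J : ℝ) ^ 2)) ≤ ‖ra π a‖ := by
      rw [hra]
      calc Real.exp (-((cA + cB + cX + cW) * (J : ℝ) ^ 2))
          ≤ Real.exp (-(cA * (J : ℝ) ^ 2)) * Real.exp (-(cX * (J : ℝ) ^ 2)) := by
            rw [← Real.exp_add, Real.exp_le_exp]
            have : 0 ≤ (cB + cW) * (J : ℝ) ^ 2 := by positivity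
            linarith
        _ ≤ _ := mul_le_mul p1 q1 (Real.exp_pos _).le (by positivity)
    have hup : ‖ra π a‖ ≤ Real.exp ((cA + cB + cX + cW) * (J : ℝ) ^ 2) := by
      rw [hra]
      calc ‖ev π.A X0‖ ^ a.2 * ‖X0‖ ^ (hn a.1).toNat
          ≤ Real.exp (cA * (J : ℝ) ^ 2) * Real.exp (cX * (J : ℝ) ^ 2) :=
            mul_le_mul p2 q2 (by positivity) (by positivity)
        _ ≤ _ := by
            rw [← Real.exp_add, Real.exp_le_exp]
            have : 0 ≤ (cB + cW) * (J : ℝ) ^ 2 := by positivity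
            linarith
    refine ⟨hlow, fun n => ?_⟩
    unfold al
    exact base _ _ _ _ _ _ _ _ ha3 hJ (rho_one π) (om_le π ha1) hup
  · obtain ⟨hb1, hb2⟩ := Finset.mem_sigma.1 hb
    have hb3 : b.2 ≤ J ^ 2 := (Finset.mem_range.1 hb2).le.trans (hm J b.1 hb1).2
    have hcb : ‖cb π J b‖ = ‖ev π.B X0‖ ^ b.2 * ‖X0‖ ^ (hn b.1).toNat * W ^ (J ^ 2) := by
      unfold cb
      rw [norm_mul, norm_mul, norm_pow, norm_pow, hW, Fin.prod_univ_two,
        Fin.prod_univ_two, Fin.prod_univ_two, Fin.prod_univ_two, Fin.prod_univ_two,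
        Fin.prod_univ_two]
      simp only [norm_mul, norm_pow, hw, mul_pow]
    obtain ⟨p1, p2⟩ := pow_bd hB hb3
    obtain ⟨q1, q2⟩ := pow_bd hX (hn_le hb1)
    obtain ⟨r1, r2⟩ := pow_bd hW1 (le_refl (J ^ 2))
    push_cast at p1 p2 q1 q2 r1 r2
    rw [← hcB] at p1 p2
    rw [← hcX] at q1 q2
    rw [← hcW] at r1 r2
    have hlow : Real.exp (-((cA + cB + cX + cW) * (J : ℝ) ^ 2)) ≤ ‖cb π J b‖ := by
      rw [hcb]
      calc Real.exp (-((cA + cB + cX + cW) * (J : ℝ) ^ 2))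
          ≤ Real.exp (-(cB * (J : ℝ) ^ 2)) * Real.exp (-(cX * (J : ℝ) ^ 2)) *
            Real.exp (-(cW * (J : ℝ) ^ 2)) := by
            rw [← Real.exp_add, ← Real.exp_add, Real.exp_le_exp]
            have : 0 ≤ cA * (J : ℝ) ^ 2 := by positivity
            linarith
        _ ≤ _ := mul_le_mul (mul_le_mul p1 q1 (Real.exp_pos _).le (by positivity)) r1
            (Real.exp_pos _).le (by positivity)
    have hup : ‖cb π J b‖ ≤ Real.exp ((cA + cB + cX + cW) * (J : ℝ) ^ 2) := by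
      rw [hcb]
      calc ‖ev π.B X0‖ ^ b.2 * ‖X0‖ ^ (hn b.1).toNat * W ^ (J ^ 2)
          ≤ Real.exp (cB * (J : ℝ) ^ 2) * Real.exp (cX * (J : ℝ) ^ 2) *
            Real.exp (cW * (J : ℝ) ^ 2) :=
            mul_le_mul (mul_le_mul p2 q2 (by positivity) (by positivity)) r2 (by positivity)
              (by positivity)
        _ ≤ _ := by
            rw [← Real.exp_add, ← Real.exp_add, Real.exp_le_exp]
            have : 0 ≤ cA * (J : ℝ) ^ 2 := by positivity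
            linarith
    refine ⟨hlow, fun n => ?_⟩
    unfold be
    rw [norm_div, Complex.norm_natCast]
    exact div_le_div_of_nonneg_right
      (base _ _ _ _ _ _ _ _ hb3 hJ (rho_one π) (ze_le π hb1) hup) (Nat.cast_nonneg _)

end Pool.Agent.H86.EI.BND
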