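import Pool.Agent.H60.EI.DSK

/-!
# Values of the exponential function on the circle with radius `|t|`
-/

set_option autoImplicit false

namespace Pool.Agent.H86.EI.CIRC

open Pool.Agent.H51.EI

/-- the fields in question are stable under conjugation -/
theorem conj_mem {K : Subfield ℂ} (hK : IQ K) {x : ℂ} (hx : x ∈ K) :
    (starRingEnd ℂ) x ∈ K := by
  rcases hK with h1 | ⟨h2, x0, hx0K, him⟩
  · have h3 : (⊥ : Subalgebra ℚ K) = ⊤ := Subalgebra.bot_eq_top_iff_finrank_eq_one.2 h1
    have h4 : (⟨x, hx⟩ : K) ∈ (⊥ : Subalgebra ℚ K) := by rw [h3]; trivial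
    obtain ⟨q, hq⟩ := Algebra.mem_bot.1 h4
    have h5 := congrArg (fun y : K => (y : ℂ)) hq
    have h6 : x = (q : ℂ) := by simpa using h5.symm
    have h7 : (starRingEnd ℂ) x = x := by
      rw [h6]
      simp
    rw [h7]
    exact hx
  · obtain ⟨α, β, hαβ⟩ := Pool.Agent.H60.EI.DSK.basis h2 hx0K him (x0 ^ 2) (K.pow_mem hx0K 2)
    obtain ⟨a, b, hab⟩ := Pool.Agent.H60.EI.DSK.basis h2 hx0K him x hx
    have hc : (starRingEnd ℂ) x0 ^ 2 = (α : ℂ) + (β : ℂ) * (starRingEnd ℂ) x0 := by
      have := congrArg (starRingEnd ℂ) hαβ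
      simpa using this
    have hne : x0 - (starRingEnd ℂ) x0 ≠ 0 := by
      intro h
      have h3 := congrArg Complex.im h
      simp only [Complex.sub_im, Complex.conj_im, Complex.zero_im, sub_neg_eq_add] at h3
      exact him (by linarith)
    have htr : x0 + (starRingEnd ℂ) x0 = (β : ℂ) := by
      have h3 : (x0 - (starRingEnd ℂ) x0) * (x0 + (starRingEnd ℂ) x0 - (β : ℂ)) = 0 := by
        linear_combination hαβ - hc
      rcases mul_eq_zero.1 h3 with h | h
      · exact absurd h hne
      · exact sub_eq_zero.1 h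
    have hcx : (starRingEnd ℂ) x = (a : ℂ) + (b : ℂ) * ((β : ℂ) - x0) := by
      rw [hab, ← htr]
      simp
    rw [hcx]
    exact K.add_mem (SubfieldClass.ratCast_mem K a)
      (K.mul_mem (SubfieldClass.ratCast_mem K b)
        (K.sub_mem (SubfieldClass.ratCast_mem K β) hx0K))

/-- values of the exponential function on the circle with radius `|t|` -/
theorem pf_CIRC (hDETK : T_DETK) : T_CIRC := by
  intro K t a hK htK ht0 hri ha hat hexp
  set S : Subfield ℂ := Subfield.closure ((K : Set ℂ) ∪ {Complex.exp t}) with hS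
  have hKS : ∀ x ∈ K, x ∈ S := fun x hx => Subfield.subset_closure (Or.inl hx)
  have heS : Complex.exp t ∈ S := Subfield.subset_closure (Or.inr rfl)
  -- the sign
  obtain ⟨hct, hexpc⟩ : ((starRingEnd ℂ) t = t ∨ (starRingEnd ℂ) t = -t) ∧
      (starRingEnd ℂ) (Complex.exp t) ∈ S := by
    rcases hri with h | h
    · have h1 : (starRingEnd ℂ) t = t := Complex.conj_eq_iff_im.2 h
      refine ⟨Or.inl h1, ?_⟩
      rw [← Complex.exp_conj, h1]
      exact heS
    · have h1 : (starRingEnd ℂ) t = -t := by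
        apply Complex.ext
        · simp [h]
        · simp
      refine ⟨Or.inr h1, ?_⟩
      rw [← Complex.exp_conj, h1, Complex.exp_neg]
      exact S.inv_mem heS
  have hcS : ∀ x ∈ S, (starRingEnd ℂ) x ∈ S := by
    have h1 : S ≤ S.comap (starRingEnd ℂ) := by
      conv_lhs => rw [hS]
      rw [Subfield.closure_le]
      rintro x (hx | hx)
      · exact hKS _ (conj_mem hK hx)
      · rw [Set.mem_singleton_iff.1 hx]
        exact hexpc
    exact fun x hx => h1 hx
  have haa : a * (starRingEnd ℂ) a = t * (starRingEnd ℂ) t := by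
    rw [Complex.mul_conj, Complex.mul_conj, Complex.normSq_eq_norm_sq, Complex.normSq_eq_norm_sq,
      hat]
  have hexpa : Complex.exp ((starRingEnd ℂ) a) ∈ K := by
    rw [Complex.exp_conj]
    exact conj_mem hK hexp
  -- the fourth entry
  obtain ⟨b, hbS, hbK, hab⟩ : ∃ b : ℂ, b ∈ S ∧ Complex.exp b ∈ K ∧ a * b = t * t := by
    rcases hct with h | h
    · refine ⟨(starRingEnd ℂ) a, hcS a ha, hexpa, ?_⟩
      rw [haa, h]
    · refine ⟨-(starRingEnd ℂ) a, S.neg_mem (hcS a ha), ?_, ?_⟩
      · rw [Complex.exp_neg]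
        exact K.inv_mem hexpa
      · rw [mul_neg, haa, h]
        ring
  refine hDETK K t (fun i j => if i = j then 0 else if i = 0 then a else b) hK htK ht0 ?_ ?_ ?_
  · rw [← hS]
    intro i j
    fin_cases i <;> fin_cases j
    · exact S.zero_mem
    · exact ha
    · exact hbS
    · exact S.zero_mem
  · intro i j
    fin_cases i <;> fin_cases j
    · simp
    · exact hexp
    · exact hbK
    · simp
  · simp [hab]

end Pool.Agent.H86.EI.CIRC
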